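import Pool.Agent.H85.GammaOne

set_option autoImplicit false

namespace Pool.Agent.Results.MP_9df12e_lc.PerfectlyMeager

open Set Filter

/-- The selection principle `S1(Gamma_1, Gamma)`. -/
def S1GammaOne (X : Type) [TopologicalSpace X] : Prop :=
  ∀ V : ℕ → ℕ → Set X, (∀ n m, IsOpen (V n m)) → (∀ x n, {m | x ∉ V n m}.Subsingleton) →
    ∃ d : ℕ → ℕ, ∀ x, ∀ᶠ n in atTop, x ∈ V n (d n)

/-- Perfectly meager sets of reals. -/
def PerfectlyMeager (X : Set ℝ) : Prop :=
  ∀ P : Set ℝ, Perfect P → P.Nonempty → IsMeagre (Subtype.val ⁻¹' X : Set P)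

theorem result (X : Set ℝ) (hX : S1GammaOne X) : PerfectlyMeager X :=
  fun _ hP hne => Pool.Agent.H85.GammaOne.meagre hX hP hne

end Pool.Agent.Results.MP_9df12e_lc.PerfectlyMeager
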